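import Pool.Agent.Lib_MP_eedf80_an.Assembly

/-!
# Commuting continuously differentiable maps of an interval

The maps live on any set `K` of real numbers (for example a closed, open or unbounded interval),
the derivative is a limit of difference quotients, and a common fixed point is found in the
closure of every nonempty connected relatively compact set mapped into itself by both maps.
-/

set_option autoImplicit false

namespace Pool.Agent.Results.MP_eedf80_an.CommutingC1Maps

open Set Filter Topology

/-- The map `f` of the set `K` of real numbers into itself is continuously differentiable: there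
is a continuous function `f'` on `K` such that at every point `x` of `K` the difference quotients
`(f y - f x) / (y - x)`, with `y` in `K` and `y ≠ x`, converge to `f' x` as `y` tends to `x`
(at an end point of an interval `K` this is the one-sided derivative). -/
def ContinuouslyDifferentiable {K : Set ℝ} (f : K → K) : Prop :=
  ∃ f' : K → ℝ, Continuous f' ∧ ∀ x : K,
    Tendsto (fun y : K => ((f y : ℝ) - f x) / ((y : ℝ) - x)) (𝓝[≠] x) (𝓝 (f' x))

/-- Extension of a map of `K` by `0`, used only inside the proof. -/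
noncomputable def zeroExt {K : Set ℝ} (f : K → ℝ) (t : ℝ) : ℝ :=
  open Classical in if h : t ∈ K then f ⟨t, h⟩ else 0

lemma zeroExt_coe {K : Set ℝ} (f : K → ℝ) (x : K) : zeroExt f x = f x := by
  unfold zeroExt
  rw [dif_pos x.2]

lemma zeroExt_of_mem {K : Set ℝ} (f : K → ℝ) {t : ℝ} (h : t ∈ K) : zeroExt f t = f ⟨t, h⟩ :=
  zeroExt_coe f ⟨t, h⟩

lemma hasDerivWithinAt_zeroExt {K : Set ℝ} {f : K → K} {c : ℝ} {x : K}
    (h : Tendsto (fun y : K => ((f y : ℝ) - f x) / ((y : ℝ) - x)) (𝓝[≠] x) (𝓝 c)) :
    HasDerivWithinAt (zeroExt (fun y => (f y : ℝ))) c K x := by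
  rw [hasDerivWithinAt_iff_tendsto_slope]
  have hS : K \ {(x : ℝ)} = Subtype.val '' ({x}ᶜ : Set K) := by
    ext t
    constructor
    · rintro ⟨h1, h2⟩
      exact ⟨⟨t, h1⟩, fun h3 => h2 (congrArg Subtype.val (show (⟨t, h1⟩ : K) = x from h3)), rfl⟩
    · rintro ⟨y, h1, rfl⟩
      exact ⟨y.2, fun h3 => h1 (Subtype.ext h3)⟩
  rw [hS, ← IsEmbedding.subtypeVal.map_nhdsWithin_eq, tendsto_map'_iff]
  refine h.congr fun y => ?_
  simp only [Function.comp_apply, slope_def_field, zeroExt_coe]

lemma continuous_of {K : Set ℝ} {f : K → K} (hf : ContinuouslyDifferentiable f) :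
    Continuous f := by
  obtain ⟨f', -, h⟩ := hf
  have h1 : ContinuousOn (zeroExt (fun y => (f y : ℝ))) K := fun x hx =>
    (hasDerivWithinAt_zeroExt (x := ⟨x, hx⟩) (h ⟨x, hx⟩)).continuousWithinAt
  have h2 := continuousOn_iff_continuous_domRestrict.1 h1
  refine continuous_induced_rng.2 (h2.congr fun x => ?_)
  simp only [domRestrict_apply, zeroExt_coe, Function.comp_apply]

lemma contDiffOn_zeroExt {K : Set ℝ} {f : K → K} (hf : ContinuouslyDifferentiable f) {a b : ℝ}
    (hab : a < b) (hK : Icc a b ⊆ K) :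
    ContDiffOn ℝ 1 (zeroExt (fun y => (f y : ℝ))) (Icc a b) := by
  obtain ⟨f', h', h⟩ := hf
  have hd : ∀ x ∈ Icc a b, HasDerivWithinAt (zeroExt (fun y => (f y : ℝ))) (zeroExt f' x) (Icc a b) x := by
    intro x hx
    rw [zeroExt_of_mem f' (hK hx)]
    exact (hasDerivWithinAt_zeroExt (x := ⟨x, hK hx⟩) (h ⟨x, hK hx⟩)).mono hK
  have hu : UniqueDiffOn ℝ (Icc a b) := uniqueDiffOn_Icc hab
  rw [show (1 : WithTop ℕ∞) = 0 + 1 from (zero_add 1).symm, contDiffOn_succ_iff_derivWithin hu]
  refine ⟨fun x hx => (hd x hx).differentiableWithinAt, by simp, ?_⟩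
  rw [contDiffOn_zero]
  have hc : ContinuousOn (zeroExt f') K := by
    rw [continuousOn_iff_continuous_domRestrict]
    refine h'.congr fun x => ?_
    simp only [domRestrict_apply, zeroExt_coe]
  refine (hc.mono hK).congr fun x hx => ?_
  exact (hd x hx).derivWithin (hu x hx)

/-- The case of a compact set `L`. -/
lemma of_compact {K : Set ℝ} {f g : K → K}
    (hf : ContinuouslyDifferentiable f) (hg : ContinuouslyDifferentiable g)
    (hfg : ∀ x, f (g x) = g (f x)) (L : Set K) (hne : L.Nonempty) (hcp : IsCompact L)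
    (hpc : IsPreconnected L) (hfL : MapsTo f L L) (hgL : MapsTo g L L) :
    ∃ x ∈ L, f x = x ∧ g x = x := by
  set S : Set ℝ := Subtype.val '' L with hS
  have hSc : IsCompact S := hcp.image continuous_subtype_val
  have hSp : IsConnected S :=
    ⟨hne.image _, hpc.image _ continuous_subtype_val.continuousOn⟩
  obtain ⟨a, b, hSab⟩ : ∃ a b, S = Icc a b := ⟨_, _, eq_Icc_of_connected_compact hSp hSc⟩
  have hmem : ∀ x : K, x ∈ L ↔ (x : ℝ) ∈ Icc a b := by
    intro x
    rw [← hSab, hS]
    constructor
    · exact fun h => ⟨x, h, rfl⟩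
    · rintro ⟨y, hy, hyx⟩
      rwa [← Subtype.ext hyx]
  have hsub : Icc a b ⊆ K := by
    rw [← hSab, hS]
    rintro _ ⟨y, -, rfl⟩
    exact y.2
  have hle : a ≤ b := by
    obtain ⟨x, hx⟩ := hne
    have := (hmem x).1 hx
    exact this.1.trans this.2
  rcases hle.eq_or_lt with heq | hab
  · obtain ⟨x, hx⟩ := hne
    have key : ∀ y : K, y ∈ L → y = x := by
      intro y hy
      have h1 := (hmem y).1 hy
      have h2 := (hmem x).1 hx
      apply Subtype.ext
      rw [← heq] at h1 h2
      exact (le_antisymm h1.2 h1.1).trans (le_antisymm h2.2 h2.1).symm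
    exact ⟨x, hx, key _ (hfL hx), key _ (hgL hx)⟩
  · set F := zeroExt (fun y => (f y : ℝ)) with hF
    set G := zeroExt (fun y => (g y : ℝ)) with hG
    have hba : 0 < b - a := sub_pos.2 hab
    have hFK : ∀ x : K, F x = f x := fun x => zeroExt_coe _ x
    have hGK : ∀ x : K, G x = g x := fun x => zeroExt_coe _ x
    have hin : ∀ s ∈ Icc (0 : ℝ) 1, a + (b - a) * s ∈ Icc a b := by
      rintro s ⟨h0, h1⟩
      constructor
      · nlinarith
      · nlinarith
    have hout : ∀ t ∈ Icc a b, (t - a) / (b - a) ∈ Icc (0 : ℝ) 1 := by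
      rintro t ⟨h0, h1⟩
      constructor
      · exact div_nonneg (by linarith) hba.le
      · rw [div_le_one hba]
        linarith
    have hFm : ∀ t ∈ Icc a b, F t ∈ Icc a b := by
      intro t ht
      have h1 : (⟨t, hsub ht⟩ : K) ∈ L := (hmem _).2 ht
      have h2 := (hmem _).1 (hfL h1)
      rw [← hFK] at h2
      exact h2
    have hGm : ∀ t ∈ Icc a b, G t ∈ Icc a b := by
      intro t ht
      have h1 : (⟨t, hsub ht⟩ : K) ∈ L := (hmem _).2 ht
      have h2 := (hmem _).1 (hgL h1)
      rw [← hGK] at h2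
      exact h2
    have hcomm : ∀ t ∈ Icc a b, F (G t) = G (F t) := by
      intro t ht
      have h1 : G t = g ⟨t, hsub ht⟩ := hGK ⟨t, hsub ht⟩
      have h2 : F t = f ⟨t, hsub ht⟩ := hFK ⟨t, hsub ht⟩
      rw [h1, h2, hFK, hGK, hfg]
    have haff : ContDiff ℝ 1 (fun s : ℝ => a + (b - a) * s) := by fun_prop
    have hC : ∀ H : ℝ → ℝ, ContDiffOn ℝ 1 H (Icc a b) →
        ContDiffOn ℝ 1 (fun s : ℝ => (H (a + (b - a) * s) - a) / (b - a)) (Icc (0 : ℝ) 1) := by
      intro H hH
      have h1 : ContDiffOn ℝ 1 (fun s : ℝ => H (a + (b - a) * s)) (Icc (0 : ℝ) 1) :=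
        hH.comp haff.contDiffOn hin
      exact (h1.sub contDiffOn_const).div_const _
    have hback : ∀ t : ℝ, a + (b - a) * ((t - a) / (b - a)) = t := by
      intro t
      field_simp
      ring
    obtain ⟨s, hs, h1, h2⟩ := Pool.Agent.CFP.main
      (fun s : ℝ => (F (a + (b - a) * s) - a) / (b - a))
      (fun s : ℝ => (G (a + (b - a) * s) - a) / (b - a))
      (fun s hs => hout _ (hFm _ (hin s hs))) (fun s hs => hout _ (hGm _ (hin s hs)))
      (hC F (contDiffOn_zeroExt hf hab hsub)) (hC G (contDiffOn_zeroExt hg hab hsub))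
      (fun s hs => by
        simp only [hback]
        rw [hcomm _ (hin s hs)])
    have ht := hin s hs
    refine ⟨⟨a + (b - a) * s, hsub ht⟩, (hmem _).2 ht, ?_, ?_⟩
    · apply Subtype.ext
      rw [← hFK]
      have h3 : F (a + (b - a) * s) - a = s * (b - a) := (div_eq_iff hba.ne').1 h1
      show F (a + (b - a) * s) = a + (b - a) * s
      linarith
    · apply Subtype.ext
      rw [← hGK]
      have h3 : G (a + (b - a) * s) - a = s * (b - a) := (div_eq_iff hba.ne').1 h2
      show G (a + (b - a) * s) = a + (b - a) * s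
      linarith

/-- Let `f` and `g` be continuously differentiable maps of a set `K` of real numbers into itself
with `f (g x) = g (f x)` for all `x` in `K`. If `A` is a nonempty connected subset of `K` whose
closure in `K` is compact and which both maps send into itself, then the closure of `A` contains a
point `x` with `f x = x` and `g x = x`. (`A = K = [0, 1]` is the question.) -/
theorem result (K : Set ℝ) (f g : K → K)
    (hf : ContinuouslyDifferentiable f) (hg : ContinuouslyDifferentiable g)
    (hfg : ∀ x, f (g x) = g (f x)) (A : Set K) (hA : IsConnected A)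
    (hc : IsCompact (closure A)) (hfA : MapsTo f A A) (hgA : MapsTo g A A) :
    ∃ x ∈ closure A, f x = x ∧ g x = x :=
  of_compact hf hg hfg _ (hA.nonempty.mono subset_closure) hc hA.isPreconnected.closure
    (hfA.closure (continuous_of hf)) (hgA.closure (continuous_of hg))

end Pool.Agent.Results.MP_eedf80_an.CommutingC1Maps
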